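import Pool.Agent.FHQ.StmtsO

/-!
# Squad FHQ, row OC2: the case that the top coordinate is in `I`
-/

set_option autoImplicit false

namespace Pool.Agent.FHQ.H41

variable {p : ℕ} {K : Type}

theorem nonexc {m : ℕ} {P : Pc p K} {g : ℤ} (hg : g ∉ P.exc m) (a u : ZMod p) (ha : a ≠ 0)
    (hu : u ≠ 0) : P.X a g ↔ P.X (a * u ^ m) (g + m) := by
  by_contra h
  exact hg ⟨a, u, ha, hu, h⟩

theorem walk [Fact p.Prime] {m : ℕ} {P : Pc p K} (a : ZMod p) (ha : a ≠ 0) (g : ℤ) :
    ∀ t : ℕ, (∀ k : ℕ, k < t → g + k * m ∉ P.exc m) → (P.X a g ↔ P.X a (g + t * m))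
  | 0, _ => by rw [Nat.cast_zero, zero_mul, add_zero]
  | t + 1, h => by
      rw [walk a ha g t fun k hk => h k (by omega)]
      have h1 := nonexc (h t (by omega)) a 1 ha one_ne_zero
      rw [one_pow, mul_one] at h1
      have h2 : g + (t : ℤ) * m + m = g + ((t + 1 : ℕ) : ℤ) * m := by
        push_cast
        ring
      rw [h2] at h1
      exact h1

/-- the value of the condition at two heights, with a residue changed by an `m`-th power -/
theorem walk2 [Fact p.Prime] {m : ℕ} {P : Pc p K} (hm : 0 < m) (a u : ZMod p) (ha : a ≠ 0)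
    (hu : u ≠ 0) (g g' : ℤ) (hmod : (m : ℤ) ∣ g' - g)
    (h : ∀ e ∈ P.exc m, ¬ (min g g' ≤ e ∧ e ≤ max g g')) :
    P.X a g ↔ P.X (a * u ^ m) g' := by
  have hm' : (0 : ℤ) < m := by exact_mod_cast hm
  have hau : a * u ^ m ≠ 0 := mul_ne_zero ha (pow_ne_zero _ hu)
  have h0 : g ∉ P.exc m := fun h1 => h g h1 ⟨min_le_left _ _, le_max_left _ _⟩
  have h1 : P.X a g ↔ P.X (a * u ^ m) g := by
    rw [nonexc h0 a u ha hu]
    have h2 := nonexc h0 (a * u ^ m) 1 hau one_ne_zero
    rw [one_pow, mul_one] at h2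
    exact h2.symm
  rw [h1]
  obtain ⟨k, hk⟩ := hmod
  rcases le_total 0 k with hk0 | hk0
  · obtain ⟨t, rfl⟩ := Int.eq_ofNat_of_zero_le hk0
    have h2 : g' = g + t * m := by
      rw [mul_comm] at hk
      linarith
    rw [h2]
    apply walk _ hau
    intro j hj h3
    refine h _ h3 ⟨?_, ?_⟩
    · refine (min_le_left _ _).trans ?_
      have : (0 : ℤ) ≤ j * m := by positivity
      linarith
    · refine le_trans ?_ (le_max_right _ _)
      rw [h2]
      have h4 : (j : ℤ) * m ≤ t * m := by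
        apply mul_le_mul_of_nonneg_right _ hm'.le
        exact_mod_cast hj.le
      linarith
  · obtain ⟨t, ht⟩ := Int.eq_ofNat_of_zero_le (neg_nonneg.2 hk0)
    have h2 : g = g' + t * m := by
      have h3 : k = -(t : ℤ) := by linarith
      rw [h3] at hk
      have h4 : (m : ℤ) * (-(t : ℤ)) = -(t * m) := by ring
      rw [h4] at hk
      linarith
    have h5 : P.X (a * u ^ m) g' ↔ P.X (a * u ^ m) (g' + t * m) := by
      apply walk _ hau
      intro j hj h3
      refine h _ h3 ⟨?_, ?_⟩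
      · refine (min_le_right _ _).trans ?_
        have : (0 : ℤ) ≤ j * m := by positivity
        linarith
      · refine le_trans ?_ (le_max_left _ _)
        rw [h2]
        have h4 : (j : ℤ) * m ≤ t * m := by
          apply mul_le_mul_of_nonneg_right _ hm'.le
          exact_mod_cast hj.le
        linarith
    rw [h5, ← h2]

/-- a level without exceptional heights -/
theorem level {n₂ : ℕ} {ι : Type} (B : Finset ℤ) (hc : B.card + 1 < n₂) (g : ι → Fin n₂ → ℤ)
    (hg : ∀ i j a b, a < b → g i a < g j b) :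
    ∃ a : Fin n₂, (a : ℕ) + 1 < n₂ ∧ ∀ e ∈ B, ∀ i j, ¬ (g i a ≤ e ∧ e ≤ g j a) := by
  classical
  by_contra hcon
  push Not at hcon
  have h1 : ∀ a : Fin (n₂ - 1), ∃ e ∈ B, ∃ i j, g i (Fin.castLE (Nat.sub_le n₂ 1) a) ≤ e ∧
      e ≤ g j (Fin.castLE (Nat.sub_le n₂ 1) a) := by
    intro a
    apply hcon
    rw [Fin.val_castLE]
    have := a.isLt
    omega
  choose f hf using h1
  have hinj : Function.Injective f := by
    have key : ∀ a b, a < b → f a < f b := by
      intro a b hab
      obtain ⟨-, i, j, h2, h3⟩ := hf a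
      obtain ⟨-, i', j', h2', h3'⟩ := hf b
      have h4 := hg j i' (Fin.castLE (Nat.sub_le n₂ 1) a) (Fin.castLE (Nat.sub_le n₂ 1) b) hab
      linarith
    intro a b hab
    rcases lt_trichotomy a b with h | h | h
    · exact absurd hab (key a b h).ne
    · exact h
    · exact absurd hab (key b a h).ne'
  have h2 : (Finset.univ.image f).card = n₂ - 1 := by
    rw [Finset.card_image_of_injective _ hinj, Finset.card_univ, Fintype.card_fin]
  have h3 : Finset.univ.image f ⊆ B := by
    intro e he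
    obtain ⟨a, -, rfl⟩ := Finset.mem_image.1 he
    exact (hf a).1
  have h4 := Finset.card_le_card h3
  omega

theorem core (hChn : ChnStmt) (hBal : BalStmt) [Fact p.Prime] [Field K] (A : AcF p K)
    (D N m n' : ℕ) (hm : 0 < m) (hn' : 0 < n') (I V : Finset (Fin D))
    (P : Fin D → (Fin D → Fin (N * n' ^ D + n' + 2)) → Pc p K)
    (x : (Fin D → Fin (N * n' ^ D + n' + 2)) → K)
    (γ : (Fin D → Fin (N * n' ^ D + n' + 2)) → ℤ) (i : Fin D) (hG : Grid A I P x γ)
    (hT : ∀ i η, Tame N m (P i η)) (hV : Mon γ V) (hi : i ∈ I)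
    (htop : ∀ η η' : Fin D → Fin (N * n' ^ D + n' + 2), η i < η' i → γ η < γ η')
    (hmod : ∀ η η', (m : ℤ) ∣ γ η' - γ η)
    (hcls : ∀ η η', ∃ u : ZMod p, u ≠ 0 ∧
      A.ac (x η' - (P i η').c) = A.ac (x η - (P i η).c) * u ^ m) : Cons A P n' := by
  classical
  obtain ⟨hb1, -, hb3, hb4, -⟩ := hBal p K A.toAcF0
  have hle : n' ≤ N * n' ^ D + n' + 2 := by omega
  let s : Fin D → Fin n' → Fin (N * n' ^ D + n' + 2) := fun _ => Fin.castLE hle
  have hs : ∀ j, Function.Injective (s j) := fun j => Fin.castLE_injective hle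
  let up : (Fin D → Fin n') → Fin (N * n' ^ D + n' + 2) → (Fin D → Fin (N * n' ^ D + n' + 2)) :=
    fun η a => Function.update (sg s η) i a
  have hup : ∀ η a, up η a i = a := fun η a => Function.update_self _ _ _
  have hPup : ∀ η a, P i (up η a) = P i (sg s η) := by
    intro η a
    apply hG.ind
    intro j hj
    exact Function.update_of_ne hj _ _
  let B : Finset ℤ := Finset.univ.biUnion fun η : Fin D → Fin n' =>
    (hT i (sg s η)).fin.toFinset
  have hBc : B.card ≤ n' ^ D * N := by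
    have h1 := Finset.card_biUnion_le_card_mul (Finset.univ : Finset (Fin D → Fin n'))
      (fun η => (hT i (sg s η)).fin.toFinset) N (fun η _ => by
        rw [← Set.ncard_eq_toFinset_card _ (hT i (sg s η)).fin]
        exact (hT i (sg s η)).card)
    rw [Finset.card_univ, Fintype.card_fun, Fintype.card_fin, Fintype.card_fin] at h1
    exact h1
  obtain ⟨a, ha, hlev⟩ := level B (n₂ := N * n' ^ D + n' + 2) (by
    have h1 : n' ^ D * N = N * n' ^ D := Nat.mul_comm _ _
    omega) (fun η a => γ (up η a)) (fun η η' a b hab => htop _ _ (by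
      rw [hup, hup]
      exact hab))
  let L : Fin (N * n' ^ D + n' + 2) := ⟨N * n' ^ D + n' + 1, by omega⟩
  have haL : a < L := by
    rw [Fin.lt_def]
    show (a : ℕ) < N * n' ^ D + n' + 1
    omega
  let ζ : Fin D → Fin n' := fun _ => ⟨0, hn'⟩
  refine ⟨i, s, hs, x (up ζ a), ?_⟩
  intro η
  -- the centres are close
  have hx : ∀ η b, x (up η b) ≠ (P i (sg s η)).c ∧
      A.v (x (up η b) - (P i (sg s η)).c) = γ (up η b) := by
    intro η b
    have h1 := hG.eq i hi (up η b)
    rw [hPup] at h1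
    exact h1
  let M : ℤ := min (γ (up ζ L)) (γ (up η L))
  have hM : γ (up ζ a) < M := by
    apply lt_min
    · exact htop _ _ (by rw [hup, hup]; exact haL)
    · exact htop _ _ (by rw [hup, hup]; exact haL)
  have hc1 : A.ball (P i (sg s ζ)).c M = A.ball (x (up ζ L)) M := by
    refine (hb4 _ _ _ ?_).symm
    exact Or.inr (by rw [(hx ζ L).2]; exact min_le_left _ _)
  have hc2 : A.ball (P i (sg s η)).c M = A.ball (x (up η L)) M := by
    refine (hb4 _ _ _ ?_).symm
    exact Or.inr (by rw [(hx η L).2]; exact min_le_right _ _)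
  have hc3 : A.ball (x (up η L)) M = A.ball (x (up ζ L)) M := by
    apply hb4
    exact hChn p K A D _ I V P x γ hG hV (up ζ L) (up η L)
  have hc : (P i (sg s η)).c ∈ A.ball (P i (sg s ζ)).c M := by
    rw [hc1, ← hc3, ← hc2]
    exact hb3 _ _
  have hE : A.E (x (up ζ a) - (P i (sg s ζ)).c) (x (up ζ a) - (P i (sg s η)).c) := by
    rw [hb1]
    have h1 := hx ζ a
    refine ⟨sub_ne_zero.2 h1.1, ?_, ?_⟩
    · intro h2
      rw [sub_eq_zero] at h2
      rcases hc with h3 | h3
      · exact h1.1 (h2.trans h3)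
      · rw [← h2, h1.2] at h3
        linarith
    · rcases hc with h3 | h3
      · left
        rw [h3]
      · right
        have h4 : x (up ζ a) - (P i (sg s ζ)).c - (x (up ζ a) - (P i (sg s η)).c) =
            (P i (sg s η)).c - (P i (sg s ζ)).c := by ring
        rw [h4, h1.2]
        linarith
  obtain ⟨-, hne, hac, hv⟩ := hE
  refine Or.inr ⟨sub_ne_zero.1 hne, ?_⟩
  rw [← hac, ← hv, (hx ζ a).2]
  -- the piece contains the point of the grid
  have h1 := hG.mem i (up η a)
  rw [hPup] at h1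
  rcases h1 with h1 | h1
  · exact absurd h1.1 (hx η a).1
  · have h2 := h1.2
    rw [(hx η a).2] at h2
    obtain ⟨u, hu, h3⟩ := hcls (up η a) (up ζ a)
    rw [hPup, hPup] at h3
    rw [h3]
    refine (walk2 hm _ u ?_ hu _ _ (hmod _ _) ?_).1 h2
    · intro h4
      exact (hx η a).1 (sub_eq_zero.1 ((A.ac_zero _).1 h4))
    · intro e he
      have heB : e ∈ B := Finset.mem_biUnion.2 ⟨η, Finset.mem_univ _, (Set.Finite.mem_toFinset _).2 he⟩
      rintro ⟨h4, h5⟩
      rcases min_le_iff.1 h4 with h6 | h6 <;> rcases le_max_iff.1 h5 with h7 | h7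
      · exact hlev e heB η η ⟨h6, h7⟩
      · exact hlev e heB η ζ ⟨h6, h7⟩
      · exact hlev e heB ζ η ⟨h6, h7⟩
      · exact hlev e heB ζ ζ ⟨h6, h7⟩

theorem oc2 (hChn : ChnStmt) (hBxc : BxcStmt) (hDlg : DlgStmt) (hBal : BalStmt) : Oc2Stmt := by
  intro D N m n' hm
  rcases Nat.eq_zero_or_pos n' with rfl | hn'
  · refine ⟨0, ?_⟩
    intro p _ K _ A I V P x γ i hG hT hV hi htop
    exact ⟨i, fun _ a => a.elim0, fun _ a => a.elim0, 0, fun η => (η i).elim0⟩
  · have : NeZero m := ⟨hm.ne'⟩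
    obtain ⟨n, hn⟩ := hBxc D (N * n' ^ D + n' + 2) (ZMod m × Fin m)
    refine ⟨n, ?_⟩
    intro p _ K _ A I V P x γ i hG hT hV hi htop
    obtain ⟨f, hf⟩ := hDlg p m hm
    obtain ⟨s, hs, c, hc⟩ := hn fun η => ((γ η : ZMod m), f (A.ac (x η - (P i η).c)))
    refine Cons.sub (fun j => (hs j).injective) (core hChn hBal A D N m n' hm hn' I V
      (fun i η => P i (sg s η)) (fun η => x (sg s η)) (fun η => γ (sg s η)) i (hG.sub s)
      (fun i η => hT i _) (hV.sub hs) hi (fun η η' h => htop _ _ (hs i h)) ?_ ?_)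
    · intro η η'
      have h1 := congrArg Prod.fst ((hc η).trans (hc η').symm)
      exact (ZMod.intCast_eq_intCast_iff_dvd_sub _ _ _).1 h1
    · intro η η'
      have h1 := congrArg Prod.snd ((hc η).trans (hc η').symm)
      have h2 : ∀ η, A.ac (x η - (P i η).c) ≠ 0 := by
        intro η h3
        exact (hG.eq i hi η).1 (sub_eq_zero.1 ((A.ac_zero _).1 h3))
      exact hf _ _ (h2 _) (h2 _) h1

end Pool.Agent.FHQ.H41
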