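import Pool.Agent.FHQ.StmtsO

/-!
# Squad FHQ, row OVT: the one-variable theorem from the theorem for single pieces
-/

set_option autoImplicit false

namespace Pool.Agent.FHQ.H41

theorem ovt (hBxc : BxcStmt) (hOv1 : Ov1Stmt) : OvtStmt := by
  intro D N m n' hD hm
  obtain ⟨n1, hn1⟩ := hOv1 D N m n' hD hm
  obtain ⟨n, hn⟩ := hBxc D n1 (Fin D → Fin N)
  refine ⟨n, ?_⟩
  intro p _ K _ A T hind htame hx
  classical
  let q : {S : Set K // TameU A N m S} → (Fin N → Pc p K) := fun S => S.2.choose
  let Q : Fin D → (Fin D → Fin n) → (Fin N → Pc p K) := fun i η => q ⟨T i η, htame i η⟩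
  have hQ : ∀ i η, (∀ j, Tame N m (Q i η j)) ∧ T i η = ⋃ j, (Q i η j).set A := fun i η =>
    (htame i η).choose_spec
  have hQind : ∀ i η η', (∀ j, j ≠ i → η j = η' j) → Q i η = Q i η' := by
    intro i η η' h
    exact congrArg q (Subtype.ext (hind i η η' h))
  choose x hx using hx
  have hk : ∀ (η : Fin D → Fin n) (i : Fin D), ∃ k : Fin N, x η ∈ (Q i η k).set A := by
    intro η i
    have h1 := hx η i
    rw [(hQ i η).2] at h1
    exact Set.mem_iUnion.1 h1
  choose k hk using hk
  obtain ⟨s, hs, c, hc⟩ := hn k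
  have hcons := hn1 p K A (fun i η => Q i (sg s η) (c i)) (fun η => x (sg s η)) (by
      intro i η η' h
      have h1 := hQind i (sg s η) (sg s η') (fun j hj => by
        show s j (η j) = s j (η' j)
        rw [h j hj])
      show Q i (sg s η) (c i) = Q i (sg s η') (c i)
      rw [h1]) (by
      intro i η
      have h1 := hk (sg s η) i
      rw [hc η] at h1
      exact h1) (fun i η => (hQ i (sg s η)).1 (c i))
  obtain ⟨i, s', hs', z, hz⟩ := hcons
  refine ⟨i, fun j a => s j (s' j a), fun j a b hab => hs' j ((hs j).injective hab), z, ?_⟩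
  intro η
  have h1 : sg (fun j a => s j (s' j a)) η = sg s (sg s' η) := rfl
  rw [h1, (hQ i (sg s (sg s' η))).2]
  exact Set.mem_iUnion.2 ⟨c i, hz η⟩

end Pool.Agent.FHQ.H41
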