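import Pool.Agent.FHQ.StmtsU
import Pool.Agent.Helper52_FHQ.PIX

/-!
# Squad FHQ, row PII: identities of countable closed subfields
-/

set_option autoImplicit false

open scoped BigOperators

noncomputable section

namespace Pool.Agent.FHQ.H41

open Polynomial

section gen

variable {L : Type} [Field L]

/-- the polynomial of an orbit -/
def orb (f : L →+* L) (a : L) (m : ℕ) : L[X] :=
  ∏ j ∈ Finset.range m, (X - C ((⇑f)^[j] a))

theorem orb_monic (f : L →+* L) (a : L) (m : ℕ) : (orb f a m).Monic :=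
  monic_prod_of_monic _ _ fun _ _ => monic_X_sub_C _

theorem orb_map (f : L →+* L) (a : L) (m : ℕ) (h : (⇑f)^[m] a = a) :
    (orb f a m).map f = orb f a m := by
  have h1 : (orb f a m).map f = ∏ j ∈ Finset.range m, (X - C ((⇑f)^[j + 1] a)) := by
    unfold orb
    rw [Polynomial.map_prod]
    refine Finset.prod_congr rfl fun j _ => ?_
    rw [Polynomial.map_sub, map_X, map_C, Function.iterate_succ_apply']
  rw [h1]
  have h2 := Finset.prod_range_succ (fun j => (X - C ((⇑f)^[j] a) : L[X])) m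
  have h3 := Finset.prod_range_succ' (fun j => (X - C ((⇑f)^[j] a) : L[X])) m
  rw [h3] at h2
  simp only [h, Function.iterate_zero_apply] at h2
  exact mul_right_cancel₀ (X_sub_C_ne_zero a) h2

theorem orb_root (f : L →+* L) (a : L) (m : ℕ) (hm : 0 < m) : (orb f a m).eval a = 0 := by
  unfold orb
  rw [eval_prod]
  apply Finset.prod_eq_zero (Finset.mem_range.2 hm)
  rw [Function.iterate_zero_apply, eval_sub, eval_X, eval_C, sub_self]

theorem orb_alg (f : L →+* L) (a : L) (m : ℕ) (hm : 0 < m) (S : Subfield L)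
    (hS : ∀ i, (orb f a m).coeff i ∈ S) : a ∈ acl S := by
  rw [H52.mem_acl]
  have h1 : orb f a m ∈ Polynomial.lifts (algebraMap S L) := by
    rw [Polynomial.lifts_iff_coeff_lifts]
    intro i
    exact ⟨⟨_, hS i⟩, rfl⟩
  obtain ⟨P, hP⟩ := (Polynomial.mem_lifts _).1 h1
  refine ⟨P, ?_, ?_⟩
  · rintro rfl
    rw [Polynomial.map_zero] at hP
    exact (orb_monic f a m).ne_zero hP.symm
  · rw [aeval_def, ← eval_map, hP]
    exact orb_root f a m hm

end gen

theorem pii (hAlm : AlmStmt) : PiiStmt := by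
  intro p _ U hU B hB hfix
  have hα : ∀ m : ℕ, ∃ α : UF p U, 0 < m → ((⇑(Ph p U))^[m] α = α ∧
      ∀ j : ℕ, 0 < j → j < m → (⇑(Ph p U))^[j] α ≠ α) := by
    intro m
    rcases Nat.eq_zero_or_pos m with rfl | hm
    · exact ⟨0, fun h => absurd h (lt_irrefl 0)⟩
    · obtain ⟨α, h⟩ := hAlm p U m hm
      exact ⟨α, fun _ => h⟩
  choose α hα using hα
  obtain ⟨B0, hB0⟩ : ∃ B0 : Set (UF p U), B0 = ⋃ m : {m : ℕ // 0 < m},
      Set.range (orb (Ph p U) (α m) m).coeff := ⟨_, rfl⟩
  obtain ⟨S, hS⟩ : ∃ S : Subfield (UF p U), S = Subfield.closure (B ∪ B0) := ⟨_, rfl⟩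
  have hSfix : ∀ a ∈ S, Ph p U a = a := by
    have h1 : S ≤ fixs (Ph p U) := by
      rw [hS, Subfield.closure_le]
      rintro b (hb | hb)
      · exact hfix b hb
      · rw [hB0] at hb
        obtain ⟨⟨m, hm⟩, hb⟩ := Set.mem_iUnion.1 hb
        obtain ⟨i, rfl⟩ := hb
        have h1 := congrArg (fun q => q.coeff i) (orb_map (Ph p U) (α m) m (hα m hm).1)
        simp only [coeff_map] at h1
        exact h1
    exact fun a ha => h1 ha
  have hcnt : Countable S := by
    rw [hS]
    apply H52.closure_countable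
    refine hB.union ?_
    rw [hB0]
    exact Set.countable_iUnion fun m => Set.countable_range _
  have hmap : ∀ a ∈ acl S, Ph p U a ∈ acl S := fun a ha =>
    H52.map_acl (Ph p U) (fun a ha => by rw [hSfix a ha]; exact ha) ha
  refine ⟨acl S, ?_, ?_⟩
  · intro b hb
    apply H52.le_acl S
    rw [hS]
    exact Subfield.subset_closure (Or.inl hb)
  · refine ⟨H52.acl_countable hcnt, fun a ha => H52.acl_closed ha, fun a ha => H52.acl_closed ha,
      ?_, fun a => ⟨hmap a a.2, rfl⟩, ?_⟩
    · intro a ha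
      exact H52.acl_per (Ph p U) (fun a ha => ⟨1, Nat.one_pos, hSfix a ha⟩) ha
    · intro m hm
      refine ⟨α m, ?_, hα m hm⟩
      apply orb_alg (Ph p U) (α m) m hm S
      intro i
      rw [hS]
      apply Subfield.subset_closure
      right
      rw [hB0]
      exact Set.mem_iUnion.2 ⟨⟨m, hm⟩, i, rfl⟩

end Pool.Agent.FHQ.H41
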